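import Mathlib

/-!
Local factors: roots of unity.
-/

set_option autoImplicit false

open Filter Topology

namespace Pool.Agent.H76.HK

/-- `1 - X ^ f` as a product over the roots of unity -/
lemma prod_unity {f : ℕ} (hf : 0 < f) {ζ : ℂ} (hζ : IsPrimitiveRoot ζ f) (X : ℂ) :
    ∏ i : Fin f, (1 - ζ ^ (i : ℕ) * X) = 1 - X ^ f := by
  classical
  have h := hζ.pow_sub_pow_eq_prod_sub_mul (1 : ℂ) X hf
  rw [one_pow] at h
  rw [h]
  have h2 : Polynomial.nthRootsFinset f (1 : ℂ) = Finset.univ.image fun i : Fin f => ζ ^ (i : ℕ) := by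
    symm
    apply Finset.eq_of_subset_of_card_le
    · intro x hx
      obtain ⟨i, _, rfl⟩ := Finset.mem_image.1 hx
      rw [Polynomial.mem_nthRootsFinset hf, ← pow_mul, mul_comm, pow_mul, hζ.pow_eq_one, one_pow]
    · rw [hζ.card_nthRootsFinset, Finset.card_image_of_injective _ fun i j hij =>
        Fin.ext (hζ.pow_inj i.2 j.2 hij), Finset.card_univ, Fintype.card_fin]
  rw [h2, Finset.prod_image]
  intro i _ j _ hij
  exact Fin.ext (hζ.pow_inj i.2 j.2 hij)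

/-- power sums of roots of unity -/
lemma sum_unity {f : ℕ} {ζ : ℂ} (hζ : IsPrimitiveRoot ζ f) (k : ℕ) :
    ∑ i : Fin f, (ζ ^ (i : ℕ)) ^ k = if f ∣ k then (f : ℂ) else 0 := by
  have h1 : ∀ i : Fin f, (ζ ^ (i : ℕ)) ^ k = (ζ ^ k) ^ (i : ℕ) := fun i => by
    rw [← pow_mul, ← pow_mul, mul_comm]
  simp_rw [h1]
  rw [Fin.sum_univ_eq_sum_range (fun i => (ζ ^ k) ^ i) f]
  split_ifs with h
  · rw [(hζ.pow_eq_one_iff_dvd k).2 h]
    simp
  · have h2 : ζ ^ k ≠ 1 := fun h' => h ((hζ.pow_eq_one_iff_dvd k).1 h')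
    rw [geom_sum_eq h2, ← pow_mul, mul_comm k f, pow_mul, hζ.pow_eq_one, one_pow, sub_self,
      zero_div]

/-- the local parameters -/
lemma local_params {ι : Type*} (S : Finset ι) (f : ι → ℕ) (hf : ∀ P ∈ S, 0 < f P) (n : ℕ)
    (hn : ∑ P ∈ S, f P ≤ n) :
    ∃ α : Fin n → ℂ, (∀ j, ‖α j‖ ≤ 1) ∧ (∀ X : ℂ, ∏ j, (1 - α j * X) = ∏ P ∈ S, (1 - X ^ f P)) ∧
      ∀ k : ℕ, 1 ≤ k → ∑ j, α j ^ k = ((∑ P ∈ S, if f P ∣ k then f P else 0 : ℕ) : ℂ) := by
  classical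
  have hz : ∀ P : S, ∃ ζ : ℂ, IsPrimitiveRoot ζ (f P) := fun P =>
    ⟨_, Complex.isPrimitiveRoot_exp (f P) (hf P P.2).ne'⟩
  choose ζ hζ using hz
  have hcard : Fintype.card ((Σ P : S, Fin (f P)) ⊕ Fin (n - ∑ P ∈ S, f P)) = n := by
    rw [Fintype.card_sum, Fintype.card_sigma, Fintype.card_fin]
    simp only [Fintype.card_fin]
    rw [Finset.sum_coe_sort S f]
    omega
  have e : Fin n ≃ (Σ P : S, Fin (f P)) ⊕ Fin (n - ∑ P ∈ S, f P) :=
    (Fintype.equivFinOfCardEq hcard).symm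
  have hnorm : ∀ P : S, ‖ζ P‖ = 1 := fun P =>
    (hζ P).norm'_eq_one (hf P P.2).ne'
  set β : (Σ P : S, Fin (f P)) ⊕ Fin (n - ∑ P ∈ S, f P) → ℂ :=
    Sum.elim (fun x => ζ x.1 ^ (x.2 : ℕ)) fun _ => 0 with hβ
  have hb : ∀ x, ‖β x‖ ≤ 1 := by
    rintro (x | x)
    · simp [hβ, hnorm]
    · simp [hβ]
  refine ⟨fun j => β (e j), fun j => hb _, fun X => ?_, fun k hk => ?_⟩
  · rw [e.prod_comp fun x => 1 - β x * X, Fintype.prod_sum_type, Fintype.prod_sigma]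
    simp only [hβ, Sum.elim_inl, Sum.elim_inr, zero_mul, sub_zero, Finset.prod_const_one, mul_one]
    rw [← Finset.prod_coe_sort S fun P => 1 - X ^ f P]
    exact Finset.prod_congr rfl fun P _ => prod_unity (hf P P.2) (hζ P) X
  · rw [e.sum_comp fun x => β x ^ k, Fintype.sum_sum_type, Fintype.sum_sigma]
    simp only [hβ, Sum.elim_inl, Sum.elim_inr, zero_pow (by omega : k ≠ 0), Finset.sum_const_zero,
      add_zero]
    push_cast
    rw [← Finset.sum_coe_sort S fun P => if f P ∣ k then (f P : ℂ) else 0]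
    exact Finset.sum_congr rfl fun P _ => sum_unity (hζ P) k

end Pool.Agent.H76.HK
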