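import Pool.Agent.H76.HK.EP1
import Pool.Agent.H76.HK.EP2
import Pool.Agent.H25.HK.Targets
import Pool.Agent.H48.DL.AH

/-!
Module EP: the Euler product of the Dedekind zeta function.
-/

set_option autoImplicit false

open Filter Topology NumberField nonZeroDivisors

namespace Pool.Agent.H76.HK

open Pool.Agent.H25.HK

section

variable (K : Type) [Field K] [NumberField K]

/-- the number of ideals of given norm -/
noncomputable def cnt (n : ℕ) : ℕ := Nat.card {I : Ideal (𝓞 K) // Ideal.absNorm I = n}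

lemma cnt_bigO : (fun n : ℕ => ∑ k ∈ Finset.Icc 1 n, (cnt K k : ℝ)) =O[atTop]
    fun n : ℕ => ((n : ℝ)) ^ (1 : ℝ) := by
  have h2 := (NumberField.Ideal.tendsto_norm_le_div_atTop₀ K).comp tendsto_natCast_atTop_atTop
  have h3 := h2.congr (f₂ := fun n : ℕ => (∑ k ∈ Finset.Icc 1 n, (cnt K k : ℝ)) / n) fun n => by
    simp only [Function.comp_apply, Nat.cast_le, ← Nat.cast_sum]
    congr
    unfold cnt
    rw [← add_left_inj 1, ← Ideal.card_norm_le_eq_card_norm_le_add_one,
      show Finset.Icc 1 n = Finset.Ioc 0 n from Finset.Icc_succ_left_eq_Ioc _ _,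
      show 1 = Nat.card {I : Ideal (𝓞 K) // Ideal.absNorm I = 0} by
        simp [Ideal.absNorm_eq_zero_iff],
      Finset.sum_Ioc_add_eq_sum_Icc (n.zero_le),
      ← Finset.card_preimage_eq_sum_card_image_eq
        (fun k _ ↦ Ideal.finite_setOfPred_absNorm_eq k)]
    simp [Set.coe_eq_subtype]
  refine Asymptotics.isBigO_of_div_tendsto_nhds ?_ _ (h3.congr fun n => ?_)
  · filter_upwards [eventually_ge_atTop 1] with n hn h
    exfalso
    rw [Real.rpow_one] at h
    have : (n : ℝ) ≠ 0 := by positivity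
    exact this h
  · rw [Pi.div_apply, Real.rpow_one]

lemma dz_summable {s : ℂ} (hs : 1 < s.re) :
    LSeriesSummable (fun n => (cnt K n : ℂ)) s := by
  exact_mod_cast LSeriesSummable_of_sum_norm_bigO_and_nonneg (r := 1) (f := fun n => (cnt K n : ℝ))
    (cnt_bigO K) (fun n => Nat.cast_nonneg _) zero_le_one hs

/-- `I ↦ N(I)^{-s}` -/
noncomputable def nm (s : ℂ) (hs : s ≠ 0) : Ideal (𝓞 K) →*₀ ℂ where
  toFun I := (Ideal.absNorm I : ℂ) ^ (-s)
  map_zero' := by
    rw [map_zero, Nat.cast_zero, Complex.zero_cpow (neg_ne_zero.2 hs)]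
  map_one' := by simp
  map_mul' I J := by
    rw [map_mul]
    push_cast
    rw [Complex.natCast_mul_natCast_cpow]

lemma fiber_sum {s : ℂ} (hs : 1 < s.re) :
    (Summable fun I => ‖nm K s (by rintro rfl; norm_num at hs) I‖) ∧
      dedekindZeta K s = ∑' I, nm K s (by rintro rfl; norm_num at hs) I := by
  have hs0 : s ≠ 0 := by rintro rfl; norm_num at hs
  have hfin : ∀ n, Finite {I : Ideal (𝓞 K) // Ideal.absNorm I = n} := fun n =>
    (Ideal.finite_setOfPred_absNorm_eq (S := 𝓞 K) n)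
  let e := Equiv.sigmaFiberEquiv (Ideal.absNorm : Ideal (𝓞 K) → ℕ)
  have hnorm : ∀ n, ∀ I : {I : Ideal (𝓞 K) // Ideal.absNorm I = n}, nm K s hs0 (I : Ideal (𝓞 K)) =
      (n : ℂ) ^ (-s) := fun n I => by
    change (Ideal.absNorm (I : Ideal (𝓞 K)) : ℂ) ^ (-s) = _
    rw [I.2]
  have hterm : ∀ n, LSeries.term (fun n => (cnt K n : ℂ)) s n = (cnt K n : ℂ) * (n : ℂ) ^ (-s) := by
    intro n
    rcases eq_or_ne n 0 with rfl | hn
    · rw [LSeries.term_zero, Nat.cast_zero, Complex.zero_cpow (neg_ne_zero.2 hs0), mul_zero]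
    · rw [LSeries.term_of_ne_zero hn, Complex.cpow_neg]
      rfl
  have hsum1 : Summable fun n : ℕ => (cnt K n : ℝ) * ‖(n : ℂ) ^ (-s)‖ := by
    have := (dz_summable K hs).norm
    refine this.congr fun n => ?_
    rw [hterm, norm_mul, Complex.norm_natCast]
  have hsig : Summable fun x : (Σ n, {I : Ideal (𝓞 K) // Ideal.absNorm I = n}) =>
      ‖nm K s hs0 (x.2 : Ideal (𝓞 K))‖ := by
    rw [summable_sigma_of_nonneg fun _ => norm_nonneg _]
    refine ⟨fun n => summable_of_hasFiniteSupport (Set.toFinite _), ?_⟩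
    refine hsum1.congr fun n => ?_
    simp_rw [hnorm n]
    rw [tsum_const, nsmul_eq_mul]
    rfl
  have hS : Summable fun I => ‖nm K s hs0 I‖ := by
    rw [← e.summable_iff]
    exact hsig
  refine ⟨hS, ?_⟩
  rw [← e.tsum_eq]
  have h1 : (∑' x : (Σ n, {I : Ideal (𝓞 K) // Ideal.absNorm I = n}),
      nm K s hs0 (x.2 : Ideal (𝓞 K))) =
      ∑' n, ∑' I : {I : Ideal (𝓞 K) // Ideal.absNorm I = n}, nm K s hs0 (I : Ideal (𝓞 K)) :=
    Summable.tsum_sigma' (fun n => summable_of_hasFiniteSupport (Set.toFinite _)) hsig.of_norm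
  refine Eq.trans ?_ h1.symm
  unfold dedekindZeta LSeries
  refine tsum_congr fun n => ?_
  simp_rw [hnorm n]
  rw [tsum_const, nsmul_eq_mul]
  exact hterm n

/-- the nonzero primes above `p` -/
lemma primes_fin (p : ℕ) (hp : p.Prime) :
    ∃ S : Finset (Ideal (𝓞 K)), (∀ P, P ∈ S ↔ P.IsPrime ∧ P ≠ ⊥ ∧ (p : 𝓞 K) ∈ P) ∧
      (∀ P ∈ S, 0 < P.inertiaDeg ℤ ∧ p ^ P.inertiaDeg ℤ = Ideal.absNorm P) ∧
      (∑ P ∈ S, P.inertiaDeg ℤ ≤ Module.finrank ℚ K) ∧
      ∀ k, (∑ P ∈ S, if P.inertiaDeg ℤ ∣ k then P.inertiaDeg ℤ else 0) = spf K p k := by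
  classical
  have hp0 : (Ideal.span {(p : ℤ)}) ≠ ⊥ := by
    rw [Ne, Ideal.span_singleton_eq_bot]
    exact_mod_cast hp.ne_zero
  have hpp : (Ideal.span {(p : ℤ)}).IsPrime := by
    rw [Ideal.span_singleton_prime (by exact_mod_cast hp.ne_zero)]
    exact Nat.prime_iff_prime_int.1 hp
  have hpm : (Ideal.span {(p : ℤ)}).IsMaximal := hpp.isMaximal hp0
  have hfin : (Ideal.primesOver (Ideal.span {(p : ℤ)}) (𝓞 K)).Finite :=
    IsDedekindDomain.primesOver_finite _ _
  have hmem : ∀ P : Ideal (𝓞 K), P ∈ Ideal.primesOver (Ideal.span {(p : ℤ)}) (𝓞 K) ↔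
      P.IsPrime ∧ P ≠ ⊥ ∧ (p : 𝓞 K) ∈ P := by
    intro P
    constructor
    · rintro ⟨h1, h2⟩
      refine ⟨h1, Ideal.ne_bot_of_mem_primesOver hp0 ⟨h1, h2⟩, ?_⟩
      have h3 : (p : ℤ) ∈ P.under ℤ := by
        rw [← Ideal.over_def P (Ideal.span {(p : ℤ)})]
        exact Ideal.mem_span_singleton_self _
      rw [Ideal.under_def, Ideal.mem_comap] at h3
      simpa using h3
    · rintro ⟨h1, h2, h3⟩
      refine ⟨h1, ⟨?_⟩⟩
      apply hpm.eq_of_le (Ideal.IsPrime.under ℤ P).ne_top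
      rw [Ideal.span_singleton_le_iff_mem, Ideal.under_def, Ideal.mem_comap]
      simpa using h3
  refine ⟨hfin.toFinset, fun P => by rw [Set.Finite.mem_toFinset, hmem], fun P hP => ?_, ?_,
    fun k => ?_⟩
  · rw [Set.Finite.mem_toFinset] at hP
    have h1 := hP.1
    have h2 := hP.2
    exact ⟨Ideal.inertiaDeg_pos P ℤ, Ideal.pow_inertiaDeg p P⟩
  · let _ : Fintype (Ideal.primesOver (Ideal.span {(p : ℤ)}) (𝓞 K)) := hfin.fintype
    have h1 := Ideal.sum_ramification_inertia_eq_finrank (Ideal.span {(p : ℤ)}) (𝓞 K)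
    rw [NumberField.RingOfIntegers.rank] at h1
    rw [← h1, Finset.sum_subtype hfin.toFinset
      (p := fun P => P ∈ Ideal.primesOver (Ideal.span {(p : ℤ)}) (𝓞 K))
      (fun x => Set.Finite.mem_toFinset _) fun P => P.inertiaDeg ℤ]
    refine Finset.sum_le_sum fun q _ => ?_
    have h2 : q.1.IsPrime := q.2.1
    exact Nat.le_mul_of_pos_left _ (Ideal.ramificationIdx_pos q.1 ℤ)
  · unfold spf
    rw [finsum_mem_eq_finite_toFinset_sum _ hfin]

lemma pow_cpow (p f : ℕ) (s : ℂ) : ((p ^ f : ℕ) : ℂ) ^ s = ((p : ℂ) ^ s) ^ f := by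
  induction f with
  | zero => simp
  | succ f ih => rw [pow_succ, pow_succ, Nat.cast_mul, Complex.natCast_mul_natCast_cpow, ih]

/-- module EP -/
theorem ep : T_EP := by
  classical
  intro K _ _
  choose S hS1 hS2 hS3 hS4 using fun p : Nat.Primes => primes_fin K p p.2
  choose α hα1 hα2 hα3 using fun p : Nat.Primes =>
    local_params (S p) (fun P => P.inertiaDeg ℤ) (fun P hP => (hS2 p P hP).1)
      (Module.finrank ℚ K) (hS3 p)
  set a : Fin (Module.finrank ℚ K) → ℕ → ℂ := fun j p => if h : p.Prime then α ⟨p, h⟩ j else 0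
    with ha
  have ha1 : ∀ j p, ‖a j p‖ ≤ 1 := by
    intro j p
    rw [ha]
    dsimp only
    split_ifs with h
    · exact hα1 _ j
    · simp
  have hap : ∀ j, ∀ p : Nat.Primes, a j p = α p j := by
    intro j p
    simp only [ha, dif_pos p.2]
    rfl
  refine ⟨fun j => H48.DL.hf (a j), fun j => H48.DL.hf_zero _, fun j => H48.DL.hf_one _,
    fun j => H48.DL.hf_mul _, fun j => H48.DL.hf_le _ (ha1 j), fun s hs => ?_, fun p k hp hk => ?_⟩
  · have hs0 : s ≠ 0 := by rintro rfl; norm_num at hs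
    obtain ⟨hsum, hdz⟩ := fiber_sum K hs
    have hsum' : Summable fun I => ‖nm K s hs0 I‖ := hsum
    have hdz' : dedekindZeta K s = ∑' I, nm K s hs0 I := hdz
    obtain ⟨hne, hprod⟩ := euler_group hsum' S (fun p P hP => by
        have := (hS1 p P).1 hP
        exact ⟨this.1, this.2.1⟩)
      (fun p q hpq => by
        rw [Finset.disjoint_left]
        intro P h1 h2
        have h3 := (hS1 p P).1 h1
        have h4 := (hS1 q P).1 h2
        apply h3.1.ne_top
        rw [Ideal.eq_top_iff_one]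
        have h5 : Nat.Coprime p q := (Nat.coprime_primes p.2 q.2).2 fun h => hpq (Subtype.ext h)
        have h6 : IsCoprime ((p : ℕ) : ℤ) ((q : ℕ) : ℤ) := Nat.isCoprime_iff_coprime.2 h5
        obtain ⟨u, v, huv⟩ := h6
        have h7 : (1 : 𝓞 K) = (u : 𝓞 K) * ((p : ℕ) : 𝓞 K) + (v : 𝓞 K) * ((q : ℕ) : 𝓞 K) := by
          have := congrArg (Int.cast : ℤ → 𝓞 K) huv
          push_cast at this
          exact this.symm
        rw [h7]
        exact P.add_mem (P.mul_mem_left _ h3.2.2) (P.mul_mem_left _ h4.2.2))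
      (fun P hP hP0 => by
        have h1 : (Ideal.absNorm P) ≠ 0 := by
          rwa [Ne, Ideal.absNorm_eq_zero_iff]
        have h2 : ((Ideal.absNorm P : ℕ) : 𝓞 K) ∈ P := Ideal.absNorm_mem P
        have h3 : ∀ n : ℕ, n ≠ 0 → (n : 𝓞 K) ∈ P → ∃ p : Nat.Primes, (((p : ℕ)) : 𝓞 K) ∈ P := by
          intro n
          induction n using Nat.recOnMul with
          | zero => intro h; exact absurd rfl h
          | one =>
            intro _ h
            rw [Nat.cast_one] at h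
            exact absurd ((Ideal.eq_top_iff_one _).2 h) hP.ne_top
          | prime p hp =>
            intro _ h
            exact ⟨⟨p, hp⟩, h⟩
          | mul x y ihx ihy =>
            intro h h'
            rw [Nat.cast_mul] at h'
            rcases hP.mem_or_mem h' with h'' | h''
            · exact ihx (left_ne_zero_of_mul h) h''
            · exact ihy (right_ne_zero_of_mul h) h''
        obtain ⟨p, hp⟩ := h3 _ h1 h2
        exact ⟨p, (hS1 p P).2 ⟨hP, hP0, hp⟩⟩)
    have hH : ∀ j, HasProd (fun p : Nat.Primes => (1 - α p j * ((p : ℕ) : ℂ) ^ (-s))⁻¹)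
        (∑' m : ℕ, H48.DL.hf (a j) m * (m : ℂ) ^ (-s)) := by
      intro j
      have key := EulerProduct.eulerProduct_completely_multiplicative_hasProd
        (H48.DL.summable_hom (a j) (ha1 j) s hs)
      have h2 : (fun p : Nat.Primes => (1 - α p j * ((p : ℕ) : ℂ) ^ (-s))⁻¹) =
          fun p : Nat.Primes => (1 - H48.DL.hom (a j) s p)⁻¹ := by
        funext p
        change _ = (1 - H48.DL.hf (a j) p * ((p : ℕ) : ℂ) ^ (-s))⁻¹
        rw [H48.DL.hf_prime _ p.2, hap]
      rw [h2]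
      exact key
    have hH2 : HasProd (fun p : Nat.Primes => ∏ j, (1 - α p j * ((p : ℕ) : ℂ) ^ (-s))⁻¹)
        (∏ j, ∑' m : ℕ, H48.DL.hf (a j) m * (m : ℂ) ^ (-s)) :=
      hasProd_prod fun j _ => hH j
    have hloc : ∀ p : Nat.Primes, (∏ P ∈ S p, (1 - nm K s hs0 P)) *
        ∏ j, (1 - α p j * ((p : ℕ) : ℂ) ^ (-s))⁻¹ = 1 := by
      intro p
      have h1 : ∏ P ∈ S p, (1 - nm K s hs0 P) = ∏ j, (1 - α p j * ((p : ℕ) : ℂ) ^ (-s)) := by
        rw [hα2 p]
        refine Finset.prod_congr rfl fun P hP => ?_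
        congr 1
        change ((Ideal.absNorm P : ℕ) : ℂ) ^ (-s) = _
        rw [← (hS2 p P hP).2, pow_cpow]
      rw [h1, ← Finset.prod_mul_distrib]
      refine Finset.prod_eq_one fun j _ => mul_inv_cancel₀ fun h => ?_
      have h2 : ‖α p j * ((p : ℕ) : ℂ) ^ (-s)‖ < 1 := by
        rw [norm_mul, Complex.norm_natCast_cpow_of_pos p.2.pos, Complex.neg_re]
        have h3 : ((p : ℕ) : ℝ) ^ (-s.re) < 1 :=
          Real.rpow_lt_one_of_one_lt_of_neg (by exact_mod_cast p.2.one_lt) (by linarith)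
        have h4 : 0 ≤ ((p : ℕ) : ℝ) ^ (-s.re) := Real.rpow_nonneg (Nat.cast_nonneg _) _
        have := hα1 p j
        nlinarith
      rw [sub_eq_zero] at h
      rw [← h, norm_one] at h2
      exact lt_irrefl _ h2
    have hfin := hprod.mul hH2
    have hone : (fun p : Nat.Primes => (∏ P ∈ S p, (1 - nm K s hs0 P)) *
        ∏ j, (1 - α p j * ((p : ℕ) : ℂ) ^ (-s))⁻¹) = fun _ => 1 := funext hloc
    rw [hone] at hfin
    have h1 := hasProd_one.unique hfin
    rw [hdz']
    field_simp at h1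
    exact h1
  · rw [← hS4 ⟨p, hp⟩ k, ← hα3 ⟨p, hp⟩ k hk]
    refine Finset.sum_congr rfl fun j _ => ?_
    have h1 : H48.DL.hf (a j) p = α ⟨p, hp⟩ j := (H48.DL.hf_prime _ hp).trans (hap j ⟨p, hp⟩)
    exact congrArg (· ^ k) h1

end

end Pool.Agent.H76.HK
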