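import Mathlib

/-!
Euler products over ideals, by sieving.
-/

set_option autoImplicit false

open Filter Topology

namespace Pool.Agent.H76.HK

section Sieve

variable {R : Type*} [CommRing R] [IsDedekindDomain R]

/-- one step of the sieve -/
lemma sieve_step {f : Ideal R →*₀ ℂ} (hf : Summable fun I => ‖f I‖) (A : Set (Ideal R))
    (P : Ideal R) (hP : P ≠ ⊥) (hA : ∀ J, P * J ∈ A ↔ J ∈ A) :
    (1 - f P) * ∑' I, A.indicator f I = ∑' I, (A ∩ {I | ¬ P ∣ I}).indicator f I := by
  classical
  have hs : Summable (A.indicator f) := by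
    refine Summable.of_norm_bounded hf fun I => ?_
    by_cases h : I ∈ A
    · rw [Set.indicator_of_mem h]
    · rw [Set.indicator_of_notMem h, norm_zero]
      exact norm_nonneg _
  have hs1 : Summable ((A ∩ {I | ¬ P ∣ I}).indicator f) := by
    refine Summable.of_norm_bounded hf fun I => ?_
    by_cases h : I ∈ A ∩ {I | ¬ P ∣ I}
    · rw [Set.indicator_of_mem h]
    · rw [Set.indicator_of_notMem h, norm_zero]
      exact norm_nonneg _
  have hs2 : Summable ((A ∩ {I | P ∣ I}).indicator f) := by
    refine Summable.of_norm_bounded hf fun I => ?_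
    by_cases h : I ∈ A ∩ {I | P ∣ I}
    · rw [Set.indicator_of_mem h]
    · rw [Set.indicator_of_notMem h, norm_zero]
      exact norm_nonneg _
  have h1 : A.indicator f = fun I => (A ∩ {I | ¬ P ∣ I}).indicator f I +
      (A ∩ {I | P ∣ I}).indicator f I := by
    funext I
    by_cases h : I ∈ A <;> by_cases h' : P ∣ I <;> simp [Set.indicator, h, h']
  have h2 : ∑' I, (A ∩ {I | P ∣ I}).indicator f I = f P * ∑' I, A.indicator f I := by
    have hinj : Function.Injective fun J : Ideal R => P * J := fun J J' h =>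
      mul_left_cancel₀ hP h
    have h3 := hinj.tsum_eq (f := (A ∩ {I | P ∣ I}).indicator f) (by
      intro I hI
      by_contra h
      apply hI
      rw [Set.indicator_of_notMem]
      rintro ⟨_, J, hJ⟩
      exact h ⟨J, hJ.symm⟩)
    rw [← h3, ← tsum_mul_left]
    refine tsum_congr fun J => ?_
    by_cases h : J ∈ A
    · rw [Set.indicator_of_mem h, Set.indicator_of_mem, map_mul]
      exact ⟨(hA J).2 h, dvd_mul_right _ _⟩
    · rw [Set.indicator_of_notMem h, Set.indicator_of_notMem, mul_zero]
      rintro ⟨h', _⟩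
      exact h ((hA J).1 h')
  have h4 : ∑' I, A.indicator f I = ∑' I, (A ∩ {I | ¬ P ∣ I}).indicator f I +
      f P * ∑' I, A.indicator f I := by
    conv_lhs => rw [h1]
    rw [hs1.tsum_add hs2, h2]
  linear_combination h4

/-- the sieve for a finite set of primes -/
lemma sieve_fin {f : Ideal R →*₀ ℂ} (hf : Summable fun I => ‖f I‖) (T : Finset (Ideal R))
    (hT : ∀ P ∈ T, P.IsPrime ∧ P ≠ ⊥) :
    (∏ P ∈ T, (1 - f P)) * ∑' I, f I = ∑' I, {I | ∀ P ∈ T, ¬ P ∣ I}.indicator f I := by
  classical
  induction T using Finset.induction_on with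
  | empty =>
    simp
  | insert P T hPT ih =>
    rw [Finset.prod_insert hPT, mul_assoc, ih fun Q hQ => hT Q (Finset.mem_insert_of_mem hQ)]
    have hP := hT P (Finset.mem_insert_self _ _)
    rw [sieve_step hf _ P hP.2]
    · congr 1
      funext I
      congr 1
      ext J
      simp only [Set.mem_inter_iff, Set.mem_ofPred_eq, Finset.mem_insert, forall_eq_or_imp]
      tauto
    · intro J
      simp only [Set.mem_ofPred_eq]
      refine forall₂_congr fun Q hQ => not_congr ?_
      have hQ' := hT Q (Finset.mem_insert_of_mem hQ)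
      have hQp : Prime Q := Ideal.prime_of_isPrime hQ'.2 hQ'.1
      rw [hQp.dvd_mul]
      refine ⟨fun h => h.resolve_left fun h' => ?_, Or.inr⟩
      have h1 : P ≤ Q := Ideal.dvd_iff_le.1 h'
      have h2 : P.IsMaximal := hP.1.isMaximal hP.2
      have h3 := h2.eq_of_le hQ'.1.ne_top h1
      rw [h3] at hPT
      exact hPT hQ

/-- the Euler product, grouped -/
lemma euler_group {ι : Type*} {f : Ideal R →*₀ ℂ} (hf : Summable fun I => ‖f I‖)
    (S : ι → Finset (Ideal R)) (hS : ∀ i, ∀ P ∈ S i, P.IsPrime ∧ P ≠ ⊥)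
    (hd : ∀ i j, i ≠ j → Disjoint (S i) (S j))
    (hcov : ∀ P : Ideal R, P.IsPrime → P ≠ ⊥ → ∃ i, P ∈ S i) :
    (∑' I, f I ≠ 0) ∧ HasProd (fun i => ∏ P ∈ S i, (1 - f P)) (∑' I, f I)⁻¹ := by
  classical
  have key : Tendsto (fun T : Finset ι => (∏ i ∈ T, ∏ P ∈ S i, (1 - f P)) * ∑' I, f I)
      atTop (𝓝 (∑' I : Ideal R, if I = ⊤ then f I else 0)) := by
    have h1 : ∀ T : Finset ι, (∏ i ∈ T, ∏ P ∈ S i, (1 - f P)) * ∑' I, f I =
        ∑' I, {I | ∀ P ∈ T.biUnion S, ¬ P ∣ I}.indicator f I := by
      intro T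
      rw [← Finset.prod_biUnion fun i _ j _ hij => hd i j hij]
      apply sieve_fin hf
      intro P hP
      obtain ⟨i, _, hi⟩ := Finset.mem_biUnion.1 hP
      exact hS i P hi
    simp_rw [h1]
    refine tendsto_tsum_of_dominated_convergence hf (fun I => ?_) (Eventually.of_forall
      fun T I => ?_)
    · by_cases hI : I = ⊤
      · rw [if_pos hI]
        refine tendsto_const_nhds.congr fun T => ?_
        rw [Set.indicator_of_mem]
        intro P hP
        obtain ⟨i, _, hi⟩ := Finset.mem_biUnion.1 hP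
        intro h
        rw [hI, ← Ideal.one_eq_top, ← isUnit_iff_dvd_one, Ideal.isUnit_iff] at h
        exact (hS i P hi).1.ne_top h
      · rw [if_neg hI]
        by_cases hI0 : I = ⊥
        · refine tendsto_const_nhds.congr fun T => ?_
          have : f I = 0 := by rw [hI0]; exact map_zero f
          by_cases h : I ∈ {I | ∀ P ∈ T.biUnion S, ¬ P ∣ I}
          · rw [Set.indicator_of_mem h, this]
          · rw [Set.indicator_of_notMem h]
        · obtain ⟨P, hP, hIP⟩ := Ideal.exists_le_maximal I hI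
          have hP0 : P ≠ ⊥ := fun h => hI0 (le_bot_iff.1 (h ▸ hIP))
          obtain ⟨i, hi⟩ := hcov P hP.isPrime hP0
          refine tendsto_const_nhds.congr' ?_
          filter_upwards [eventually_ge_atTop {i}] with T hT
          rw [Set.indicator_of_notMem]
          intro h
          exact h P (Finset.mem_biUnion.2 ⟨i, hT (Finset.mem_singleton_self i), hi⟩)
            (Ideal.dvd_iff_le.2 hIP)
    · by_cases h : I ∈ {I | ∀ P ∈ T.biUnion S, ¬ P ∣ I}
      · rw [Set.indicator_of_mem h]
      · rw [Set.indicator_of_notMem h, norm_zero]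
        exact norm_nonneg _
  have h2 : (∑' I : Ideal R, if I = ⊤ then f I else 0) = 1 := by
    rw [tsum_eq_single ⊤ fun I hI => if_neg hI, if_pos rfl, ← Ideal.one_eq_top, map_one]
  rw [h2] at key
  have hne : ∑' I, f I ≠ 0 := by
    intro h
    rw [h] at key
    simp only [mul_zero] at key
    exact zero_ne_one (tendsto_nhds_unique tendsto_const_nhds key)
  refine ⟨hne, ?_⟩
  have h3 := key.mul_const (∑' I, f I)⁻¹
  rw [one_mul] at h3
  refine h3.congr fun T => ?_
  rw [mul_assoc, mul_inv_cancel₀ hne, mul_one]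

end Sieve

end Pool.Agent.H76.HK
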